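import Mathlib
import Pool.Agent.E8helper39.WW.Step
import Pool.Agent.E8helper57.WW.NC
import Pool.Agent.E8helper65.WW.TUTTE
import Pool.Agent.E8helper54.WW.Exz
import Pool.Agent.E8helper91.WW.Gp
import Pool.Agent.E8helper87.WW.FIRST
import Pool.Agent.E8helper11.WW.T
import Pool.Agent.E8helper51.WW.W
import Pool.Agent.E8helper10.WW.DIV
import Pool.Agent.E8helper85.WW.Ver
import Pool.Agent.E8helper52.WW.NSV
import Pool.Agent.E8helper89.WW.InjDim
import Pool.Agent.E8helper55.WW.FIN

/-!
# Plane curves of degree `d` through exactly `k` points of a finite set, `k ≤ N_d - 1`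

`N_d = (d + 1) (d + 2) / 2` is the dimension of the space of forms of degree `d`. If a finite set `P`
of points of the real projective plane is not contained in a curve of degree `d`, then for every
`k ≤ N_d - 1` some curve of degree `d` passes through exactly `k` points of `P`. The case
`k = N_d - 1` is the question.

The proof uses the theorem of the starting files behind `S10569` (a curve with exactly `N_d - 1` points
of `P` which determine it); smaller `k` are obtained from a general member of the linear system of the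
curves through `k` of these `N_d - 1` points, which impose independent conditions.
-/

set_option autoImplicit false

open Module MvPolynomial

namespace Pool.Agent.Results.MP_ed12bb_co.ExactCounts

/-- The form `F` is a plane curve of degree `d`: it is homogeneous of degree `d` and not zero
(reducible and non-reduced forms are allowed). -/
def IsCurve (d : ℕ) (F : MvPolynomial (Fin 3) ℝ) : Prop :=
  F.IsHomogeneous d ∧ F ≠ 0

/-- The curve `F = 0` passes through the point `p` of the real projective plane: `F` vanishes at all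
homogeneous coordinates `v` of `p`. -/
def PassesThrough (F : MvPolynomial (Fin 3) ℝ) (p : Projectivization ℝ (Fin 3 → ℝ)) : Prop :=
  ∀ (v : Fin 3 → ℝ) (hv : v ≠ 0), Projectivization.mk ℝ v hv = p → eval v F = 0

lemma eval_smul_hom {d : ℕ} {F : MvPolynomial (Fin 3) ℝ} (hF : F.IsHomogeneous d)
    (a : ℝ) (v : Fin 3 → ℝ) : eval (a • v) F = a ^ d * eval v F := by
  rw [eval_eq, eval_eq, Finset.mul_sum]
  refine Finset.sum_congr rfl fun m hm => ?_
  have hdeg : ∑ i ∈ m.support, m i = d := by
    have h1 := hF (mem_support_iff.1 hm)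
    rw [Finsupp.weight_apply, Finsupp.sum] at h1
    simpa using h1
  simp only [Pi.smul_apply, smul_eq_mul, mul_pow, Finset.prod_mul_distrib]
  rw [Finset.prod_pow_eq_pow_sum, hdeg]
  ring

lemma passes_iff {d : ℕ} {F : MvPolynomial (Fin 3) ℝ} (hF : F.IsHomogeneous d)
    (p : Projectivization ℝ (Fin 3 → ℝ)) : PassesThrough F p ↔ eval p.rep F = 0 := by
  constructor
  · intro h
    exact h p.rep p.rep_nonzero p.mk_rep
  · intro h v hv hvp
    rw [← p.mk_rep, Projectivization.mk_eq_mk_iff'] at hvp
    obtain ⟨a, ha⟩ := hvp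
    rw [← ha, eval_smul_hom hF, h, mul_zero]

/-- the theorem of the starting files behind `S10569` -/
theorem wiseman_wilson : WW39.S_FIN := by
  have h1 : WW39.S_NC1 := Pool.Agent.E8helper57.WW.t_NC1
  have h2 : WW39.S_NC2 := Pool.Agent.E8helper57.WW.t_NC2 h1
  have hF : WW39.S_FIRST := Pool.Agent.E8helper87.WW.t_FIRST
  have hG : WW39.S_GP := Pool.Agent.E8helper91.WW.t_GP WW39.t_TUTTE
    Pool.Agent.E8helper54.WW.Exz.t_EXZ
  have hT : WW39.S_T := WW39.t_T (Pool.Agent.E8helper87.WW.t_START hF)
    (WW39.t_STEP h1 h2 hG hF) h1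
  have hN : WW39.S_NSV := Pool.Agent.E8helper52.WW.t_NSV
    (Pool.Agent.E8helper85.WW.t_VER Pool.Agent.E8helper51.WW.t_W WW39.t_DIV)
  exact WW39.t_FIN hT hN Pool.Agent.E8helper89.WW.t_INJ Pool.Agent.E8helper89.WW.t_DIM

/-- Let `P` be a finite set of points of the real projective plane which is not contained in any curve
of degree `d ≥ 1`. Then there is a curve of degree `d` which passes through exactly `N_d - 1` points
of `P`, `N_d = (d + 1) (d + 2) / 2`; more generally, for every `k ≤ N_d - 1` there is a curve of degree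
`d` which passes through exactly `k` points of `P`. -/
theorem result (d : ℕ) (hd : 1 ≤ d) (P : Finset (Projectivization ℝ (Fin 3 → ℝ)))
    (hP : ¬ ∃ F, IsCurve d F ∧ ∀ p ∈ P, PassesThrough F p) :
    (∃ F, IsCurve d F ∧
      {p | p ∈ P ∧ PassesThrough F p}.ncard = (d + 1) * (d + 2) / 2 - 1) ∧
    ∀ k : ℕ, k ≤ (d + 1) * (d + 2) / 2 - 1 →
      ∃ F, IsCurve d F ∧ {p | p ∈ P ∧ PassesThrough F p}.ncard = k := by
  classical
  suffices hall : ∀ k : ℕ, k ≤ (d + 1) * (d + 2) / 2 - 1 →
      ∃ F, IsCurve d F ∧ {p | p ∈ P ∧ PassesThrough F p}.ncard = k from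
    ⟨hall _ le_rfl, hall⟩
  intro k hk
  rcases wiseman_wilson d hd P with ⟨f, hf, hf0, h⟩ | ⟨f, hf, hf0, hcard, huniq⟩
  · exact absurd ⟨f, ⟨hf, hf0⟩, fun p hp => (passes_iff hf p).2 (h p hp)⟩ hP
  obtain ⟨hfd, hdim⟩ := Pool.Agent.E8helper89.WW.t_DIM d
  set W := MvPolynomial.homogeneousSubmodule (Fin 3) ℝ d with hW
  set Q := P.filter (fun p => eval p.rep f = 0) with hQ
  let ev : Projectivization ℝ (Fin 3 → ℝ) → Dual ℝ W := fun p => WW39.ver d p.rep
  have hev : ∀ (p : Projectivization ℝ (Fin 3 → ℝ)) (F : W), ev p F = eval p.rep F.1 :=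
    fun p F => WW39.ver_apply d p.rep F
  have hNpos : 1 ≤ (d + 1) * (d + 2) / 2 := by
    rw [Nat.le_div_iff_mul_le (by norm_num)]
    nlinarith
  -- a form vanishing on `Q` except at `q`
  have key : ∀ q ∈ Q, ∃ g : W, (∀ q' ∈ Q, q' ≠ q → ev q' g = 0) ∧ ev q g ≠ 0 := by
    intro q hq
    let L : W →ₗ[ℝ] ({x // x ∈ Q.erase q} → ℝ) := LinearMap.pi fun x => ev x.1
    have h1 : finrank ℝ ({x // x ∈ Q.erase q} → ℝ) = (d + 1) * (d + 2) / 2 - 2 := by
      rw [Module.finrank_fintype_fun_eq_card, Fintype.card_coe, Finset.card_erase_of_mem hq, hcard]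
      omega
    have h2 := LinearMap.finrank_range_add_finrank_ker L
    have h3 : finrank ℝ (LinearMap.range L) ≤ (d + 1) * (d + 2) / 2 - 2 := by
      rw [← h1]; exact Submodule.finrank_le _
    have hQpos : 0 < Q.card := Finset.card_pos.2 ⟨q, hq⟩
    have h4 : 2 ≤ finrank ℝ (LinearMap.ker L) := by
      rw [hdim] at h2
      omega
    -- not every element of the kernel is a multiple of f
    by_contra hcon
    push Not at hcon
    have h5 : LinearMap.ker L ≤ Submodule.span ℝ {(⟨f, hf⟩ : W)} := by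
      intro g hg
      rw [LinearMap.mem_ker] at hg
      have hg' : ∀ q' ∈ Q, q' ≠ q → ev q' g = 0 := by
        intro q' hq' hne
        have := congrFun hg ⟨q', Finset.mem_erase.2 ⟨hne, hq'⟩⟩
        simpa [L] using this
      have hgq := hcon g hg'
      obtain ⟨c, hc⟩ := huniq g.1 g.2 (by
        intro p hp hpf
        have hpQ : p ∈ Q := Finset.mem_filter.2 ⟨hp, hpf⟩
        by_cases hpq : p = q
        · rw [hpq, ← hev]; exact hgq
        · rw [← hev]; exact hg' p hpQ hpq)
      rw [Submodule.mem_span_singleton]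
      exact ⟨c, Subtype.ext hc.symm⟩
    have h6 := Submodule.finrank_mono h5
    have h7 := finrank_span_singleton (K := ℝ) (v := (⟨f, hf⟩ : W)) (by
      intro h; exact hf0 (congrArg Subtype.val h))
    omega
  obtain ⟨R, hRQ, hR⟩ := Finset.exists_subset_card_eq (hcard ▸ hk : k ≤ Q.card)
  -- forms vanishing on R
  let K : Submodule ℝ W := ⨅ q : {x // x ∈ R}, LinearMap.ker (ev q.1)
  obtain ⟨g, hgK, hg⟩ := Module.Dual.exists_forall_mem_ne_zero_of_forall_exists K
    (fun p : {x // x ∈ P \ R} => ev p.1) (by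
      rintro ⟨p, hp⟩
      rw [Finset.mem_sdiff] at hp
      by_cases hpQ : p ∈ Q
      · obtain ⟨g, h1, h2⟩ := key p hpQ
        refine ⟨g, ?_, h2⟩
        rw [Submodule.mem_iInf]
        rintro ⟨q, hq⟩
        rw [LinearMap.mem_ker]
        exact h1 q (hRQ hq) (by rintro rfl; exact hp.2 hq)
      · refine ⟨⟨f, hf⟩, ?_, ?_⟩
        · rw [Submodule.mem_iInf]
          rintro ⟨q, hq⟩
          rw [LinearMap.mem_ker, hev]
          exact (Finset.mem_filter.1 (hRQ hq)).2
        · simp only [hev]
          intro h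
          exact hpQ (Finset.mem_filter.2 ⟨hp.1, h⟩))
  have hRP : R ⊆ P := hRQ.trans (Finset.filter_subset _ _)
  have hset : {p | p ∈ P ∧ PassesThrough g.1 p} = (R : Set (Projectivization ℝ (Fin 3 → ℝ))) := by
    ext p
    simp only [Set.mem_ofPred_eq, Finset.mem_coe]
    rw [passes_iff g.2]
    constructor
    · rintro ⟨hp, h⟩
      by_contra hpR
      exact hg ⟨p, Finset.mem_sdiff.2 ⟨hp, hpR⟩⟩ (by rw [hev]; exact h)
    · intro hp
      refine ⟨hRP hp, ?_⟩
      rw [Submodule.mem_iInf] at hgK
      have := hgK ⟨p, hp⟩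
      rw [LinearMap.mem_ker, hev] at this
      exact this
  refine ⟨g.1, ⟨g.2, ?_⟩, ?_⟩
  · intro h0
    -- P is not contained in R
    have hne : (P \ R).Nonempty := by
      rw [Finset.sdiff_nonempty]
      intro hsub
      apply hP
      refine ⟨f, ⟨hf, hf0⟩, fun p hp => (passes_iff hf p).2 ?_⟩
      exact (Finset.mem_filter.1 (hRQ (hsub hp))).2
    obtain ⟨p, hp⟩ := hne
    apply hg ⟨p, hp⟩
    simp only [hev]
    rw [h0, map_zero]
  · rw [hset, Set.ncard_coe_finset, hR]

end Pool.Agent.Results.MP_ed12bb_co.ExactCounts
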